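import Mathlib
import Pool.Prelude.Def_F_35584057

set_option autoImplicit false

/-! # Double coverings of intervals by primes: combinatorial part (helper713) -/

namespace Pool.Agent.Helper713.DC

open Finset Nc3e2487a

open scoped Classical

/-- weighted greedy choice of residue classes -/
theorem greedy_w (w : ℕ → ℝ) (S : Finset ℕ) (hS : ∀ p ∈ S, p.Prime) (R : Finset ℕ) :
    ∃ b : ℕ → ℕ,
      (∑ k ∈ R.filter (fun k => ∀ p ∈ S, ¬ k ≡ b p [MOD p]), w k) ≤
        (∑ k ∈ R, w k) * ∏ p ∈ S, (1 - 1 / (p : ℝ)) := by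
  induction S using Finset.induction_on generalizing R with
  | empty => exact ⟨fun _ => 0, by simp⟩
  | insert p S hpS ih =>
    have hp := hS p (mem_insert_self _ _)
    have hp1 : (1 : ℝ) ≤ p := by exact_mod_cast hp.one_lt.le
    have havg : ∃ c ∈ range p, (∑ k ∈ R.filter (fun k => ¬ k ≡ c [MOD p]), w k) ≤
        (∑ k ∈ R, w k) * (1 - 1 / (p : ℝ)) := by
      by_contra hcon
      push Not at hcon
      have hne : (range p).Nonempty := ⟨0, mem_range.2 hp.pos⟩
      have h1 := sum_lt_sum_of_nonempty hne hcon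
      rw [sum_const, card_range, nsmul_eq_mul] at h1
      have h2 : ∑ c ∈ range p, (∑ k ∈ R.filter (fun k => ¬ k ≡ c [MOD p]), w k) =
          ∑ k ∈ R, w k * (((range p).filter (fun c => ¬ k ≡ c [MOD p])).card : ℝ) := by
        simp_rw [sum_filter]
        rw [sum_comm]
        apply sum_congr rfl
        intro k _
        rw [← sum_filter, sum_const, nsmul_eq_mul, mul_comm]
      have h3 : ∀ k ∈ R, w k * (((range p).filter (fun c => ¬ k ≡ c [MOD p])).card : ℝ) =
          w k * ((p : ℝ) - 1) := by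
        intro k _
        have h4 : (range p).filter (fun c => ¬ k ≡ c [MOD p]) = (range p).erase (k % p) := by
          ext c
          rw [mem_filter, mem_erase, mem_range]
          constructor
          · rintro ⟨h, h'⟩
            refine ⟨?_, h⟩
            rintro rfl
            exact h' (Nat.mod_modEq k p).symm
          · rintro ⟨h, h'⟩
            refine ⟨h', fun h'' => h ?_⟩
            have h5 : k % p = c % p := h''
            rw [Nat.mod_eq_of_lt h'] at h5
            exact h5.symm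
        rw [h4, card_erase_of_mem (mem_range.2 (Nat.mod_lt _ hp.pos)), card_range,
          Nat.cast_sub hp.one_lt.le]
        simp
      rw [h2, sum_congr rfl h3, ← sum_mul] at h1
      have hp0 : (p : ℝ) ≠ 0 := by exact_mod_cast hp.ne_zero
      apply lt_irrefl _ (lt_of_lt_of_eq h1 _)
      field_simp
    obtain ⟨c, hc, hle⟩ := havg
    obtain ⟨b, hbc⟩ := ih (fun q hq => hS q (mem_insert_of_mem hq)) (R.filter (fun k => ¬ k ≡ c [MOD p]))
    refine ⟨Function.update b p c, ?_⟩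
    have h8 : R.filter (fun k => ∀ q ∈ insert p S, ¬ k ≡ Function.update b p c q [MOD q]) =
        (R.filter (fun k => ¬ k ≡ c [MOD p])).filter (fun k => ∀ q ∈ S, ¬ k ≡ b q [MOD q]) := by
      ext k
      rw [mem_filter, mem_filter, mem_filter]
      constructor
      · rintro ⟨hk1, hk2⟩
        refine ⟨⟨hk1, ?_⟩, ?_⟩
        · have := hk2 p (mem_insert_self _ _)
          rwa [Function.update_self] at this
        · intro q hq
          have h9 : q ≠ p := fun h => hpS (h ▸ hq)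
          have := hk2 q (mem_insert_of_mem hq)
          rwa [Function.update_of_ne h9] at this
      · rintro ⟨⟨hk1, hk2⟩, hk3⟩
        refine ⟨hk1, ?_⟩
        intro q hq
        rcases mem_insert.1 hq with rfl | hq
        · rwa [Function.update_self]
        · have h9 : q ≠ p := fun h => hpS (h ▸ hq)
          rw [Function.update_of_ne h9]
          exact hk3 q hq
    rw [h8, prod_insert hpS]
    refine hbc.trans ?_
    have hprod : 0 ≤ ∏ q ∈ S, (1 - 1 / (q : ℝ)) := by
      apply prod_nonneg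
      intro q hq
      have hq1 : (1 : ℝ) ≤ q := by exact_mod_cast (hS q (mem_insert_of_mem hq)).one_lt.le
      have : 1 / (q : ℝ) ≤ 1 := by rw [div_le_one (by linarith)]; exact hq1
      linarith
    calc (∑ k ∈ R.filter (fun k => ¬ k ≡ c [MOD p]), w k) * ∏ q ∈ S, (1 - 1 / (q : ℝ))
        ≤ ((∑ k ∈ R, w k) * (1 - 1 / (p : ℝ))) * ∏ q ∈ S, (1 - 1 / (q : ℝ)) :=
          mul_le_mul_of_nonneg_right hle hprod
      _ = _ := by ring

/-- a set of targets is reached by a function on a set which is at least as large -/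
theorem reach (T Q : Finset ℕ) (h : T.card ≤ Q.card) : ∃ F : ℕ → ℕ, ∀ n ∈ T, ∃ p ∈ Q, F p = n := by
  obtain ⟨Q', hQ', hc⟩ := exists_subset_card_eq h
  let e := Finset.equivOfCardEq hc
  refine ⟨fun p => if hp : p ∈ Q' then (e ⟨p, hp⟩ : ℕ) else 0, fun n hn => ?_⟩
  refine ⟨(e.symm ⟨n, hn⟩ : ℕ), hQ' (e.symm ⟨n, hn⟩).2, ?_⟩
  simp

/-- combinatorial core -/
theorem core (x L0 : ℕ) (hx : 6 ≤ x) (small med Lg : Finset ℕ) (P : ℕ → Prop)
    (hsmall : ∀ p, p ∈ small ↔ p.Prime ∧ p ≠ 2 ∧ P p ∧ 2 * p ≤ x)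
    (hmed : ∀ p, p ∈ med ↔ p.Prime ∧ p ≠ 2 ∧ ¬ P p ∧ 2 * p ≤ x)
    (hLg : ∀ p, p ∈ Lg ↔ p.Prime ∧ p ≤ x ∧ x < 2 * p)
    (h2 : P 2) (h3 : P 3) (b : ℕ → ℕ) (Sm U : Finset ℕ)
    (hSm : ∀ n, 1 ≤ n → n < x → (∀ p : ℕ, p.Prime → p ∣ n → P p) → n ∈ Sm)
    (hU : ∀ n, 1 ≤ n → n ≤ L0 → (∀ p ∈ small, ¬ n ≡ b p [MOD p]) → n ∈ U)
    (hc : Sm.card + U.card ≤ Lg.card) :
    ∃ a : ℕ → ℕ, ∃ A B : Finset ℕ, A.Nonempty ∧ B.Nonempty ∧ Disjoint A B ∧ A ∪ B = primesUpTo x ∧
      Covers 1 x A a ∧ (∀ n, 1 ≤ n → n ≤ L0 → ∃ p ∈ B, Nat.ModEq p n (a p)) ∧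
      ∀ n, (∀ p ∈ B, ¬ Nat.ModEq p n (a p)) → ∀ p ∈ small, ¬ n ≡ b p [MOD p] := by
  obtain ⟨AL, hAL, hALc⟩ := exists_subset_card_eq (show Sm.card ≤ Lg.card by omega)
  obtain ⟨F, hF⟩ := reach Sm AL (by omega)
  obtain ⟨G, hG⟩ := reach U (Lg \ AL) (by rw [card_sdiff_of_subset hAL]; omega)
  have hL2 : ∀ p ∈ Lg, p ≠ 2 ∧ p ∉ small ∧ p ∉ med := by
    intro p hp
    have h := (hLg p).1 hp
    refine ⟨by omega, fun h' => ?_, fun h' => ?_⟩
    · have := (hsmall p).1 h'; omega
    · have := (hmed p).1 h'; omega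
  have hsm : ∀ p ∈ small, p ≠ 2 ∧ p ∉ med ∧ p ∉ Lg := by
    intro p hp
    refine ⟨((hsmall p).1 hp).2.1, fun h' => ((hmed p).1 h').2.2.1 ((hsmall p).1 hp).2.2.1, fun h' => ?_⟩
    exact (hL2 p h').2.1 hp
  let a : ℕ → ℕ := fun p => if p = 2 then 1 else if p ∈ small then b p else if p ∈ med then 0 else
    if p ∈ AL then F p else G p
  have ha2 : a 2 = 1 := by simp [a]
  have has : ∀ p ∈ small, a p = b p := by
    intro p hp
    simp [a, (hsm p hp).1, hp]
  have ham : ∀ p ∈ med, a p = 0 := by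
    intro p hp
    have h1 : p ≠ 2 := ((hmed p).1 hp).2.1
    have h2' : p ∉ small := fun h => (hsm p h).2.1 hp
    simp [a, h1, h2', hp]
  have haA : ∀ p ∈ AL, a p = F p := by
    intro p hp
    obtain ⟨h1, h2', h3'⟩ := hL2 p (hAL hp)
    simp [a, h1, h2', h3', hp]
  have haG : ∀ p ∈ Lg \ AL, a p = G p := by
    intro p hp
    rw [mem_sdiff] at hp
    obtain ⟨h1, h2', h3'⟩ := hL2 p hp.1
    simp [a, h1, h2', h3', hp.2]
  refine ⟨a, insert 2 (med ∪ AL), small ∪ (Lg \ AL), ⟨2, mem_insert_self _ _⟩,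
    ⟨3, mem_union_left _ ((hsmall 3).2 ⟨Nat.prime_three, by norm_num, h3, by omega⟩)⟩, ?_, ?_, ?_, ?_, ?_⟩
  · rw [Finset.disjoint_left]
    intro p hp hq
    rw [mem_insert, mem_union] at hp
    rw [mem_union, mem_sdiff] at hq
    rcases hp with rfl | hp | hp
    · rcases hq with hq | hq
      · exact (hsm 2 hq).1 rfl
      · exact (hL2 2 hq.1).1 rfl
    · rcases hq with hq | hq
      · exact (hsm p hq).2.1 hp
      · exact (hL2 p hq.1).2.2 hp
    · rcases hq with hq | hq
      · exact (hL2 p (hAL hp)).2.1 hq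
      · exact hq.2 hp
  · ext p
    rw [mem_union, mem_insert, mem_union, mem_union, mem_sdiff, primesUpTo, mem_filter, mem_range]
    constructor
    · rintro ((rfl | h | h) | (h | h))
      · exact ⟨by omega, Nat.prime_two⟩
      · have := (hmed p).1 h; exact ⟨by omega, this.1⟩
      · have := (hLg p).1 (hAL h); exact ⟨by omega, this.1⟩
      · have := (hsmall p).1 h; exact ⟨by omega, this.1⟩
      · have := (hLg p).1 h.1; exact ⟨by omega, this.1⟩
    · rintro ⟨h1, h2'⟩
      by_cases e1 : p = 2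
      · exact Or.inl (Or.inl e1)
      by_cases e2 : 2 * p ≤ x
      · by_cases e3 : P p
        · exact Or.inr (Or.inl ((hsmall p).2 ⟨h2', e1, e3, e2⟩))
        · exact Or.inl (Or.inr (Or.inl ((hmed p).2 ⟨h2', e1, e3, e2⟩)))
      · have e4 : p ∈ Lg := (hLg p).2 ⟨h2', by omega, by omega⟩
        by_cases e5 : p ∈ AL
        · exact Or.inl (Or.inr (Or.inr e5))
        · exact Or.inr (Or.inr ⟨e4, e5⟩)
  · intro n hn hnx
    by_cases hodd : n % 2 = 1
    · exact ⟨2, mem_insert_self _ _, by rw [ha2]; exact hodd⟩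
    · by_cases hP : ∀ p : ℕ, p.Prime → p ∣ n → P p
      · obtain ⟨p, hp, hpn⟩ := hF n (hSm n hn hnx hP)
        refine ⟨p, mem_insert_of_mem (mem_union_right _ hp), ?_⟩
        rw [haA p hp, hpn]
      · push Not at hP
        obtain ⟨p, hp, hpn, hPp⟩ := hP
        have hp2 : p ≠ 2 := by rintro rfl; exact hPp h2
        have hco : Nat.Coprime 2 p := (Nat.coprime_primes Nat.prime_two hp).2 (Ne.symm hp2)
        have h2n : 2 ∣ n := by omega
        have h2p : 2 * p ∣ n := hco.mul_dvd_of_dvd_of_dvd h2n hpn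
        have hle := Nat.le_of_dvd (by omega) h2p
        have hpm : p ∈ med := (hmed p).2 ⟨hp, hp2, hPp, by omega⟩
        refine ⟨p, mem_insert_of_mem (mem_union_left _ hpm), ?_⟩
        rw [ham p hpm]
        exact (Nat.modEq_zero_iff_dvd).2 hpn
  · intro n hn hnL
    by_cases hs : ∀ p ∈ small, ¬ n ≡ b p [MOD p]
    · obtain ⟨p, hp, hpn⟩ := hG n (hU n hn hnL hs)
      refine ⟨p, mem_union_right _ hp, ?_⟩
      rw [haG p hp, hpn]
    · push Not at hs
      obtain ⟨p, hp, hpn⟩ := hs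
      exact ⟨p, mem_union_left _ hp, by rw [has p hp]; exact hpn⟩
  · intro n hn p hp hpn
    exact hn p (mem_union_left _ hp) (by rw [has p hp]; exact hpn)

end Pool.Agent.Helper713.DC
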